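import Pool.Agent.helper7.CS.SpecA

/-!
# Project cs: (MP_70a088_an), block A: MDI, the derivative inequality
-/

set_option autoImplicit false

open Complex Metric Set Filter Topology MeasureTheory
open Pool.Agent.helper98.ILF
open HY (UD T S hd UN RM)
open PM (DD rm cx pd cr hdf)

noncomputable section

namespace CSF

theorem MDI (hMTB : MTB_stmt) (hLVB : LVB_stmt) (hTDF : PM.TDF_stmt) (hHDI : HY.HDI_stmt) :
    MDI_stmt := by
  intro Y δ ε₀ hY V hV t p q hp hq
  obtain ⟨hitd, -, -, -, hL⟩ := hLVB Y δ ε₀ hY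
  obtain ⟨-, -, -, -, -, -, -, -, hVC, -, -⟩ := hL V hV
  have hpt : p ∈ PB Y V t := hp t
  have hq0 : it Y t p ∈ PB Y V 0 := hp t
  obtain ⟨hWD, hpW, -, -, -, hWm, -⟩ := hVC t p hpt
  obtain ⟨hVD0, -, -, hVe, -, -, -⟩ := hVC 0 (it Y t p) hq0
  have hqe : VC Y V 0 q = VC Y V 0 (it Y t p) := hVe q hq
  have hVD : DD (VC Y V 0 q) := by
    rw [hqe]
    exact hVD0
  have hqV : q ∈ VC Y V 0 q := by
    rw [hqe]
    exact hq
  have hma : MapsTo (it Y t) (VC Y V t p) (VC Y V 0 q) := by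
    have h := hWm t le_rfl
    rw [Nat.sub_self, ← hqe] at h
    exact h
  obtain ⟨-, -, hWT⟩ := hTDF (VC Y V t p) hWD
  obtain ⟨hWR, -, -, -, -, -, hWx⟩ := hWT p hpW
  obtain ⟨-, -, hVT⟩ := hTDF (VC Y V 0 q) hVD
  obtain ⟨-, -, -, -, hVc, hVb, -⟩ := hVT q hqV
  have hmap : ∀ x ∈ UD, it Y t (rm (VC Y V t p) p x) ∈ VC Y V 0 q := fun x hx => hma (hWx x hx).1
  have hdF : DifferentiableOn ℂ (FC Y V t p q) UD := by
    have h1 : DifferentiableOn ℂ (fun x => it Y t (rm (VC Y V t p) p x)) UD :=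
      (hitd t).comp_differentiableOn hWR.dif
    exact hVc.comp h1 (fun x hx => hmap x hx)
  have h0 : (0 : ℂ) ∈ UD := mem_ball_self one_pos
  refine ⟨hdF, fun x hx => (hVb _ (hmap x hx)).1, ?_, fun x hx => (hVb _ (hmap x hx)).2.1, ?_⟩
  · unfold FC
    rw [hWR.val]
  · intro B w hB hB1 hw hF
    have hw1 : ‖w‖ < 1 := by simpa [UD] using hw
    have hpos : 0 < 1 - ‖w‖ ^ 2 := by nlinarith [norm_nonneg w]
    by_cases hz : ∀ x ∈ RL Y V t q B, bt Y V t p x w ≠ 0
    · obtain ⟨χ, hχ, hχ0, hχB, hder⟩ := hMTB Y δ ε₀ hY V hV t p q hp hq B w hB hB1 hw hF hz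
      have hχd : DifferentiableAt ℂ χ 0 := hχ.dif.differentiableAt (isOpen_ball.mem_nhds h0)
      have hFd : DifferentiableAt ℂ (FC Y V t p q) (χ 0) := by
        rw [hχ0]
        exact hdF.differentiableAt (isOpen_ball.mem_nhds hw)
      have hc : deriv (fun x => FC Y V t p q (χ x)) 0 = deriv (FC Y V t p q) w * deriv χ 0 := by
        have h := (hFd.hasDerivAt.comp (0 : ℂ) hχd.hasDerivAt).deriv
        rw [hχ0] at h
        exact h
      have hsp : ‖deriv χ 0‖ ≤ 1 - ‖w‖ ^ 2 := by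
        have h := hHDI.2.1 χ (fun z => z) 0 hχ.dif hχ.map differentiableAt_id (by simpa using h0)
        simp only [HY.hd, hχ0] at h
        rw [div_le_iff₀ hpos] at h
        simpa using h
      rw [hc, norm_mul] at hder
      exact hder.trans (mul_le_mul_of_nonneg_left hsp (norm_nonneg _))
    · push Not at hz
      obtain ⟨x, hx, hx0⟩ := hz
      have hprod : (∏ x ∈ RL Y V t q B, ‖bt Y V t p x w‖) = 0 :=
        Finset.prod_eq_zero hx (by rw [hx0, norm_zero])
      rw [hprod, mul_zero]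
      exact mul_nonneg (norm_nonneg _) hpos.le

end CSF
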